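import Pool.Agent.Lib.MP_e6fef2_lc.Chain

/-!
Module LIMB: a thread along a sequence extends to a thread with countable support.
-/

set_option autoImplicit false

universe u

open Cardinal Filter

namespace Pool.Agent.Lib.MP_e6fef2_lc.H1

open Pool.Agent.Lib.MP_e6fef2_lc

section Alg

variable {A C : Type u} [CompleteBooleanAlgebra A] [CompleteBooleanAlgebra C] {f : A → C}

/-- The facts on complete embeddings used here. -/
structure Facts (f : A → C) : Prop where
  le_iff : ∀ a b, f a ≤ f b ↔ a ≤ b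
  bot : f ⊥ = ⊥
  iInfN : ∀ a : ℕ → A, f (⨅ i, a i) = ⨅ i, f (a i)
  le_prj : ∀ c, c ≤ f (prj f c)
  prj_le : ∀ c a, prj f c ≤ a ↔ c ≤ f a
  prj_self : ∀ a, prj f (f a) = a
  prj_mono : ∀ c d, c ≤ d → prj f c ≤ prj f d
  prj_bot : ∀ c, prj f c = ⊥ ↔ c = ⊥

theorem facts (halg : AlgStatement.{u}) (hf : IsCE f) : Facts f := by
  obtain ⟨-, h2, -, -, h5, -, -, -, h9, h10, h11, h12, h13, -, -, -, -, h18, -⟩ := halg A C f hf
  exact ⟨h5, h2, h9, h10, h11, h12, h13, h18⟩

end Alg

section Ch

variable {L : Type u} [LinearOrder L] {A : L → Type u} [∀ i, CompleteBooleanAlgebra (A i)]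
  {f : ∀ i j, A i → A j}

theorem prj_id (hch : IsCh A f) (i : L) (c : A i) : prj (f i i) c = c := by
  have h : f i i = fun a => a := funext fun a => hch.id i a
  unfold prj
  rw [h]
  exact le_antisymm (sInf_le (by simp)) (le_sInf fun a ha => ha)

theorem prj_comp (halg2 : Alg2Statement.{u}) (hch : IsCh A f) {i j k : L} (hij : i ≤ j)
    (hjk : j ≤ k) (c : A k) : prj (f i k) c = prj (f i j) (prj (f j k) c) := by
  have h : f i k = fun a => f j k (f i j a) := funext fun a => (hch.comp i j k hij hjk a).symm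
  have h2 := (halg2 (A i) (A j) (A k) (f i j) (f j k) (hch.ce i j hij) (hch.ce j k hjk)).2.1 c
  rw [h]
  exact h2

theorem th_le (halg2 : Alg2Statement.{u}) (hch : IsCh A f) {i : ℕ → L} (hi : Monotone i)
    {q : ∀ n, A (i n)} (hq : IsTh f i q) {m n : ℕ} (hmn : m ≤ n) :
    prj (f (i m) (i n)) (q n) = q m := by
  induction n, hmn using Nat.le_induction with
  | base => exact prj_id hch (i m) (q m)
  | succ n hmn ih =>
    rw [prj_comp halg2 hch (hi hmn) (hi (Nat.le_succ n)), hq n, ih]

theorem prj_eq (halg2 : Alg2Statement.{u}) (hch : IsCh A f) {i : ℕ → L} (hi : Monotone i)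
    {q : ∀ n, A (i n)} (hq : IsTh f i q) {j : L} {m n : ℕ} (hm : j ≤ i m) (hn : j ≤ i n) :
    prj (f j (i m)) (q m) = prj (f j (i n)) (q n) := by
  rcases le_total m n with h | h
  · rw [prj_comp halg2 hch hm (hi h) (q n), th_le halg2 hch hi hq h]
  · rw [prj_comp halg2 hch hn (hi h) (q m), th_le halg2 hch hi hq h]

variable (f) in
open Classical in
/-- The thread generated by a thread along a sequence. -/
noncomputable def tt (i : ℕ → L) (q : ∀ n, A (i n)) (j : L) : A j :=
  if h : ∃ n, j ≤ i n then prj (f j (i h.choose)) (q h.choose) else ⨅ n, f (i n) j (q n)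

theorem tt_of_le (halg2 : Alg2Statement.{u}) (hch : IsCh A f) {i : ℕ → L} (hi : Monotone i)
    {q : ∀ n, A (i n)} (hq : IsTh f i q) {j : L} {n : ℕ} (hn : j ≤ i n) :
    tt f i q j = prj (f j (i n)) (q n) := by
  have h : ∃ n, j ≤ i n := ⟨n, hn⟩
  unfold tt
  rw [dif_pos h]
  exact prj_eq halg2 hch hi hq h.choose_spec hn

theorem tt_of_not {i : ℕ → L} {q : ∀ n, A (i n)} {j : L} (h : ¬ ∃ n, j ≤ i n) :
    tt f i q j = ⨅ n, f (i n) j (q n) := by
  unfold tt
  rw [dif_neg h]

theorem tt_self (halg2 : Alg2Statement.{u}) (hch : IsCh A f) {i : ℕ → L} (hi : Monotone i)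
    {q : ∀ n, A (i n)} (hq : IsTh f i q) (n : ℕ) : tt f i q (i n) = q n := by
  rw [tt_of_le halg2 hch hi hq le_rfl, prj_id hch]

theorem anti (halg : AlgStatement.{u}) (hch : IsCh A f) {i : ℕ → L}
    (hi : Monotone i) {q : ∀ n, A (i n)} (hq : IsTh f i q) {j : L} (hj : ∀ n, i n ≤ j) :
    Antitone fun n => f (i n) j (q n) := by
  refine antitone_nat_of_succ_le fun n => ?_
  have h1 : q (n + 1) ≤ f (i n) (i (n + 1)) (q n) :=
    ((facts halg (hch.ce _ _ (hi (Nat.le_succ n)))).prj_le _ _).1 (hq n).le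
  have h2 := ((facts halg (hch.ce _ _ (hj (n + 1)))).le_iff _ _).2 h1
  rw [hch.comp _ _ _ (hi (Nat.le_succ n)) (hj (n + 1))] at h2
  exact h2

theorem tt_th (halg : AlgStatement.{u}) (halg2 : Alg2Statement.{u}) (hch : IsCh A f)
    (htp : ∀ j, TPat A f j) {i : ℕ → L} (hi : Monotone i) {q : ∀ n, A (i n)} (hq : IsTh f i q)
    (j k : L) (hjk : j ≤ k) : prj (f j k) (tt f i q k) = tt f i q j := by
  by_cases hk : ∃ n, k ≤ i n
  · obtain ⟨n, hn⟩ := hk
    rw [tt_of_le halg2 hch hi hq hn, tt_of_le halg2 hch hi hq (hjk.trans hn),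
      prj_comp halg2 hch hjk hn]
  · have hk' : ∀ n, i n ≤ k := fun n => by
      by_contra h
      exact hk ⟨n, (not_le.1 h).le⟩
    rw [tt_of_not hk]
    by_cases hj : ∃ n, j ≤ i n
    · obtain ⟨n, hn⟩ := hj
      rw [tt_of_le halg2 hch hi hq hn, prj_comp halg2 hch hn (hk' n)]
      congr 1
      have h1 := htp k (fun m => i (n + m)) (fun a b hab => hi (Nat.add_le_add_left hab n))
        (fun m => hk' (n + m)) (fun m => q (n + m)) (fun m => hq (n + m))
      have h2 : (⨅ m, f (i (n + m)) k (q (n + m))) = ⨅ m, f (i m) k (q m) := by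
        apply le_antisymm
        · refine le_iInf fun m => ?_
          exact (iInf_le _ m).trans (anti halg hch hi hq hk' (Nat.le_add_left m n))
        · exact le_iInf fun m => iInf_le _ (n + m)
      rw [h2] at h1
      exact h1
    · rw [tt_of_not hj]
      have h1 : (⨅ n, f (i n) k (q n)) = f j k (⨅ n, f (i n) j (q n)) := by
        rw [(facts halg (hch.ce _ _ hjk)).iInfN]
        refine iInf_congr fun n => ?_
        have hnj : i n ≤ j := by
          by_contra h
          exact hj ⟨n, (not_le.1 h).le⟩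
        exact (hch.comp _ _ _ hnj hjk _).symm
      rw [h1, (facts halg (hch.ce _ _ hjk)).prj_self]

end Ch

theorem limb (halg : AlgStatement.{u}) (halg2 : Alg2Statement.{u}) : LimbStatement.{u} := by
  intro L _ A _ f hch htp i hi q hq hq0
  have hth := tt_th halg halg2 hch htp hi hq
  have hself := tt_self halg2 hch hi hq
  have hne : ∀ j, tt f i q j ≠ ⊥ := by
    intro j hj
    apply hq0
    rcases le_total j (i 0) with h | h
    · have h1 := hth j (i 0) h
      rw [hj, (facts halg (hch.ce _ _ h)).prj_bot, hself] at h1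
      exact h1
    · have h1 := hth (i 0) j h
      rw [hself] at h1
      rw [← h1, (facts halg (hch.ce _ _ h)).prj_bot]
      exact hj
  refine ⟨⟨tt f i q, hth, hne, Set.range i, Set.countable_range i, Set.range_nonempty i, ?_⟩,
    hself, ?_⟩
  · intro j hj
    apply le_antisymm
    · refine le_iInf₂ fun k hk => ?_
      exact ((facts halg (hch.ce _ _ (hj k hk))).prj_le _ _).1 (hth k j (hj k hk)).le
    · by_cases h : ∃ n, j ≤ i n
      · obtain ⟨n, hn⟩ := h
        have hn' : i n = j := le_antisymm (hj _ ⟨n, rfl⟩) hn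
        have h1 : (⨅ k ∈ Set.range i, f k j (tt f i q k)) ≤ f j j (tt f i q j) :=
          iInf₂_le j ⟨n, hn'⟩
        rw [hch.id] at h1
        exact h1
      · rw [tt_of_not h]
        refine le_iInf fun n => ?_
        have h1 : (⨅ k ∈ Set.range i, f k j (tt f i q k)) ≤ f (i n) j (tt f i q (i n)) :=
          iInf₂_le (i n) ⟨n, rfl⟩
        rw [hself] at h1
        exact h1
  · intro r hr j
    change r.t j ≤ tt f i q j
    by_cases h : ∃ n, j ≤ i n
    · obtain ⟨n, hn⟩ := h
      rw [tt_of_le halg2 hch hi hq hn, ← r.th j (i n) hn]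
      exact (facts halg (hch.ce _ _ hn)).prj_mono _ _ (hr n)
    · rw [tt_of_not h]
      refine le_iInf fun n => ?_
      have hnj : i n ≤ j := by
        by_contra h'
        exact h ⟨n, (not_le.1 h').le⟩
      have h1 : r.t j ≤ f (i n) j (r.t (i n)) :=
        ((facts halg (hch.ce _ _ hnj)).prj_le _ _).1 (r.th _ _ hnj).le
      exact h1.trans (((facts halg (hch.ce _ _ hnj)).le_iff _ _).2 (hr n))

end Pool.Agent.Lib.MP_e6fef2_lc.H1
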