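import Pool.Agent.Lib.MP_e6fef2_lc.H1.Limb
import Pool.Agent.Lib.MP_c5d73d_lc.F.H62.Roapi

/-!
Module LIMC: the limit algebra, the regular open algebra of the threads with countable support.
-/

set_option autoImplicit false

universe u

open Cardinal Filter

namespace Pool.Agent.Lib.MP_e6fef2_lc.H1

open Pool.Agent.Lib.MP_e6fef2_lc
open Pool.Agent.Lib.MP_100a6c_lc
open Pool.Agent.Lib.MP_c5d73d_lc.F (pr)
open Pool.Agent.Lib.MP_c5d73d_lc.F.H62 (mem_reg pr_le_iff pr_mono self_mem_pr mem_pr_iff le_iff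
  iSup_pr_eq_gen mem_gen eq_iSup_pr pr_ne_bot mem_hcompl)

section RO

variable {P : Type u} [Preorder P]

theorem ro_le (b c : H1.RO P) : b ≤ c ↔ ∀ p, pr p ≤ b → pr p ≤ c := by
  rw [le_iff]
  exact forall_congr' fun p => by rw [pr_le_iff, pr_le_iff]

theorem ro_dense (b : H1.RO P) (p : P) (h : ∀ q ≤ p, ∃ r ≤ q, pr r ≤ b) : pr p ≤ b := by
  rw [pr_le_iff, mem_reg]
  intro q hq
  obtain ⟨r, hr, hrb⟩ := h q hq
  exact ⟨r, hr, (pr_le_iff r b).1 hrb⟩

theorem ro_bot (b : H1.RO P) : b = ⊥ ↔ ∀ p, ¬ pr p ≤ b := by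
  constructor
  · rintro rfl p h
    exact pr_ne_bot p (le_bot_iff.1 h)
  · intro h
    rw [eq_bot_iff, ro_le]
    exact fun p hp => absurd hp (h p)

end RO

section Ch

variable {L : Type u} [LinearOrder L] {A : L → Type u} [∀ i, CompleteBooleanAlgebra (A i)]
  {f : ∀ i j, A i → A j}

theorem le_thE {i : L} {a : A i} {p : Thr A f} (h : p.t i ≤ a) : pr p ≤ thE i a :=
  le_iSup_of_le (⟨p, h⟩ : {p : Thr A f // p.t i ≤ a}) le_rfl

theorem thE_le (hlima : LimaStatement.{u}) (hch : IsCh A f) (i : L) (a : A i) (p : Thr A f) :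
    pr p ≤ thE i a ↔ p.t i ≤ a := by
  refine ⟨fun h => ?_, le_thE⟩
  by_contra hcon
  have hne : p.t i ⊓ aᶜ ≠ ⊥ := by
    intro h1
    apply hcon
    rw [← disjoint_iff] at h1
    exact disjoint_compl_right_iff.1 h1
  obtain ⟨q, hqp, hqi, -⟩ := hlima L A f hch p i aᶜ hne
  have h2 : (thE i a : H1.RO (Thr A f)) =
      Pool.Agent.Lib.MP_c5d73d_lc.F.H62.gen {p : Thr A f | p.t i ≤ a} := by
    rw [← iSup_pr_eq_gen]
    unfold thE
    rw [iSup_subtype]
    rfl
  rw [h2, pr_le_iff, mem_gen] at h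
  obtain ⟨r, hr, n, hn, hrn⟩ := h q hqp
  apply r.ne i
  rw [eq_bot_iff, ← inf_compl_self a]
  refine le_inf ((hrn i).trans hn) ((hr i).trans ?_)
  rw [hqi]
  exact inf_le_right

theorem prj_pr (hlima : LimaStatement.{u}) (hch : IsCh A f) (i : L) (p : Thr A f) :
    prj (fun a => (thE i a : H1.RO (Thr A f))) (pr p) = p.t i := by
  unfold prj
  simp only [thE_le hlima hch i]
  exact le_antisymm (sInf_le le_rfl) (le_sInf fun a ha => ha)

theorem exists_t (halg : AlgStatement.{u}) (halg2 : Alg2Statement.{u}) (hch : IsCh A f)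
    (htp : ∀ j, TPat A f j) (i : L) (a : A i) (ha : a ≠ ⊥) : ∃ p : Thr A f, p.t i = a := by
  obtain ⟨p, hp, -⟩ := limb halg halg2 L A f hch htp (fun _ => i) monotone_const (fun _ => a)
    (fun n => prj_id hch i a) ha
  exact ⟨p, hp 0⟩

theorem thE_ce (halg : AlgStatement.{u}) (halg2 : Alg2Statement.{u}) (hlima : LimaStatement.{u})
    (hch : IsCh A f) (htp : ∀ j, TPat A f j) (i : L) :
    IsCE (fun a : A i => (thE i a : H1.RO (Thr A f))) := by
  have hle := thE_le hlima hch i
  have hrefl : ∀ a b : A i, (thE i a : H1.RO (Thr A f)) ≤ thE i b → a ≤ b := by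
    intro a b hab
    by_cases ha : a = ⊥
    · rw [ha]
      exact bot_le
    · obtain ⟨p, hp⟩ := exists_t halg halg2 hch htp i a ha
      have h1 := (hle b p).1 (((hle a p).2 hp.le).trans hab)
      rwa [hp] at h1
  refine ⟨fun a b hab => le_antisymm (hrefl a b (le_of_eq hab)) (hrefl b a (le_of_eq hab.symm)),
    fun a => ?_, fun s => ?_⟩
  · change (thE i aᶜ : H1.RO (Thr A f)) = (thE i a)ᶜ
    apply le_antisymm
    · rw [le_compl_iff_disjoint_right, disjoint_iff, ro_bot]
      intro p hp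
      have h1 := (hle _ _).1 (hp.trans inf_le_left)
      have h2 := (hle _ _).1 (hp.trans inf_le_right)
      apply p.ne i
      rw [eq_bot_iff, ← compl_inf_self a]
      exact le_inf h1 h2
    · rw [ro_le]
      intro p hp
      rw [hle]
      by_contra hcon
      have hne : p.t i ⊓ a ≠ ⊥ := by
        intro h1
        apply hcon
        rw [← disjoint_iff] at h1
        exact le_compl_iff_disjoint_right.2 h1
      obtain ⟨q, hqp, hqi, -⟩ := hlima L A f hch p i a hne
      have h1 : pr q ≤ (thE i a : H1.RO (Thr A f)) := by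
        rw [hle, hqi]
        exact inf_le_right
      apply pr_ne_bot q
      rw [eq_bot_iff, ← compl_inf_self (thE i a : H1.RO (Thr A f))]
      exact le_inf ((pr_mono hqp).trans hp) h1
  · change (thE i (sSup s) : H1.RO (Thr A f)) = ⨆ a ∈ s, thE i a
    apply le_antisymm
    · rw [ro_le]
      intro p hp
      rw [hle] at hp
      refine ro_dense _ _ fun q hq => ?_
      have h1 : ∃ a ∈ s, q.t i ⊓ a ≠ ⊥ := by
        by_contra hcon
        push Not at hcon
        apply q.ne i
        have h2 : q.t i ≤ sSup s := (hq i).trans hp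
        rw [← inf_eq_left.2 h2, inf_sSup_eq, eq_bot_iff]
        exact iSup₂_le fun a ha => (hcon a ha).le
      obtain ⟨a, ha, hne⟩ := h1
      obtain ⟨r, hrq, hri, -⟩ := hlima L A f hch q i a hne
      refine ⟨r, hrq, ?_⟩
      have h2 : pr r ≤ (thE i a : H1.RO (Thr A f)) := by
        rw [hle, hri]
        exact inf_le_right
      exact h2.trans (le_iSup₂_of_le a ha le_rfl)
    · refine iSup₂_le fun a ha => ?_
      rw [ro_le]
      intro p hp
      rw [hle] at hp ⊢
      exact hp.trans (le_sSup ha)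

theorem le_of_supp (halg : AlgStatement.{u}) (hch : IsCh A f) (p r : Thr A f) (s : Set L)
    (hs : ∀ j, (∀ i ∈ s, i ≤ j) → p.t j = ⨅ i ∈ s, f i j (p.t i))
    (h : ∀ i ∈ s, r.t i ≤ p.t i) : r ≤ p := by
  intro j
  by_cases hj : ∃ i ∈ s, j ≤ i
  · obtain ⟨i, hi, hji⟩ := hj
    rw [← p.th j i hji, ← r.th j i hji]
    exact (facts halg (hch.ce _ _ hji)).prj_mono _ _ (h i hi)
  · push Not at hj
    rw [hs j fun i hi => (hj i hi).le]
    refine le_iInf₂ fun i hi => ?_
    have hij := (hj i hi).le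
    have h1 : r.t j ≤ f i j (r.t i) := ((facts halg (hch.ce _ _ hij)).prj_le _ _).1 (r.th _ _ hij).le
    exact h1.trans (((facts halg (hch.ce _ _ hij)).le_iff _ _).2 (h i hi))

end Ch

theorem limc (halg : AlgStatement.{u}) (halg2 : Alg2Statement.{u}) (hlima : LimaStatement.{u}) :
    LimcStatement.{u} := by
  intro L _ _ A _ f hch htp
  have hce := thE_ce halg halg2 hlima hch htp
  refine ⟨thE_le hlima hch, ⟨hce, ?_⟩, ?_, ?_⟩
  · intro i j hij a
    change (thE j (f i j a) : H1.RO (Thr A f)) = thE i a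
    apply le_antisymm
    · rw [ro_le]
      intro p hp
      rw [thE_le hlima hch] at hp ⊢
      rw [← p.th i j hij]
      exact ((facts halg (hch.ce _ _ hij)).prj_le _ _).2 hp
    · rw [ro_le]
      intro p hp
      rw [thE_le hlima hch] at hp ⊢
      rw [← p.th i j hij] at hp
      exact ((facts halg (hch.ce _ _ hij)).prj_le _ _).1 hp
  · intro i hi q hq
    by_cases hq0 : q 0 = ⊥
    · have hb : (⨅ n, (thE (i n) (q n) : H1.RO (Thr A f))) = ⊥ := by
        rw [eq_bot_iff]
        refine (iInf_le _ 0).trans ?_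
        rw [hq0]
        exact (facts halg (hce (i 0))).bot.le
      rw [hq0]
      change prj (fun a => (thE (i 0) a : H1.RO (Thr A f))) _ = ⊥
      rw [hb]
      exact ((facts halg (hce (i 0))).prj_bot ⊥).2 rfl
    · obtain ⟨p, hp, hmax⟩ := limb halg halg2 L A f hch htp i hi q hq hq0
      have hb : (⨅ n, (thE (i n) (q n) : H1.RO (Thr A f))) = pr p := by
        apply le_antisymm
        · rw [ro_le]
          intro r hr
          refine pr_mono (hmax r fun n => ?_)
          rw [← thE_le hlima hch]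
          exact hr.trans (iInf_le _ n)
        · refine le_iInf fun n => ?_
          rw [thE_le hlima hch, hp]
      change prj (fun a => (thE (i 0) a : H1.RO (Thr A f))) _ = _
      rw [hb, prj_pr hlima hch, hp]
  · intro c hc
    have h1 : ∃ p : Thr A f, pr p ≤ c := by
      by_contra hcon
      push Not at hcon
      exact hc ((ro_bot c).2 hcon)
    obtain ⟨p, hp⟩ := h1
    obtain ⟨s, hs1, hs2, hs3⟩ := p.supp
    refine ⟨pr p, hp, pr_ne_bot p, s, hs1, hs2, ?_⟩
    apply le_antisymm
    · refine le_iInf₂ fun i hi => ?_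
      rw [thE_le hlima hch, prj_pr hlima hch]
    · rw [ro_le]
      intro r hr
      refine pr_mono (le_of_supp halg hch p r s hs3 fun i hi => ?_)
      rw [← thE_le hlima hch]
      have h2 := hr.trans (iInf₂_le i hi)
      rwa [prj_pr hlima hch] at h2

end Pool.Agent.Lib.MP_e6fef2_lc.H1
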